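import Pool.Agent.X133.Sq.Bridge
import Pool.Agent.X133.Sq.Usc

/-!
# Continuity of the squeezing measure `G` (MP_7519fb_mp)

Write a covariance matrix as `γ = S (1 + R²) S` with `S` positive definite symplectic and `R ≥ 0`
commuting with `σ` (`S²` is the geometric mean of `γ` and `σᵀγ⁻¹σ`). If `γ → γ₀` then (along
ultrafilters) `S → S₀` and `R → R₀`. For a nearly optimal pure `A₀ ≤ γ₀` put
`S₀⁻¹ A₀ S₀⁻¹ = 1 + R₀ C R₀`. Then `S (1 + (1 - δ) R C R) S ≤ γ` is a covariance matrix for `γ`
close to `γ₀`, and close to `A₀`. This gives the upper semicontinuity.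
-/

set_option autoImplicit false

open Pool.Agent.X133.Sq

namespace Pool.Agent.Results.MP_7519fb_mp.Continuity

/-- For every `n`, the squeezing measure `G` is continuous on the set of all covariance matrices on
`n` modes, boundary points included. (The set whose infimum is `G(γ)` is nonempty and bounded below
for every covariance matrix `γ`, so `G(γ)` is a true infimum.) -/
theorem result (n : ℕ) :
    (∀ γ : Matrix (Quad n) (Quad n) ℝ, IsCovariance γ →
      (costs γ).Nonempty ∧ BddBelow (costs γ)) ∧
    ContinuousOn (fun γ : Matrix (Quad n) (Quad n) ℝ => G γ)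
      {γ : Matrix (Quad n) (Quad n) ℝ | IsCovariance γ} := by
  refine ⟨fun γ h => ⟨nonempty_costs h, bddBelow_costs γ⟩, ?_⟩
  have h := GG_continuousOn (isJ_sigma n)
  have e : (fun γ : Matrix (Quad n) (Quad n) ℝ => G γ) = GG (sigma n) := by
    funext γ
    exact G_eq γ
  rw [e]
  exact h

end Pool.Agent.Results.MP_7519fb_mp.Continuity
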